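import Pool.Agent.X261.DT.Main
import Pool.Agent.X261.MB.Gam

/-!
An example over the fields with `7 ^ r` elements.
-/

set_option autoImplicit false
set_option linter.all false

open Polynomial

namespace Pool.Agent.X261.DT

open Pool.Agent.X261.TW.Ex (evL addL smulL mulL ev_addL ev_smulL ev_mulL)
open Pool.Agent.X261.RO.Ce
open Pool.Agent.X261.MS (charP7 not_sq7)
open Pool.Agent.X261.MB (fG PG fG_deg not_cube7)

def HA1 : List (List ℤ) := [[0, 1], [0, 4, 0, 3], [0, 6], [0, 3, 0, 4], [0, 1]]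
def QA1 : List (List ℤ) := [[0, 4, 0, 1], [0, 6, 0, 4, 0, 4, 0, 5, 0, 5, 0, 6, 0, 2, 0, 5, 0, 3],
  [0, 3, 0, 6], [0, 1, 0, 3, 0, 3, 0, 2, 0, 2, 0, 1, 0, 5, 0, 2, 0, 4]]
def HA2 : List (List ℤ) := [[0, 1], [0, 1, 0, 4], [0, 6], [0, 6, 0, 3], [0, 1]]
def QA2 : List (List ℤ) := [[0, 4, 0, 1], [0, 3, 0, 1, 0, 3, 0, 1, 0, 3, 0, 5, 0, 2, 0, 2, 0, 4],
  [0, 3, 0, 6], [0, 4, 0, 6, 0, 4, 0, 6, 0, 4, 0, 2, 0, 5, 0, 5, 0, 3]]
def HA3 : List (List ℤ) := [[0, 1], [2, 2, 5, 4, 4], [1, 0, 2, 2, 1], [6, 1, 5, 1, 1],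
  [3, 3, 2, 0, 1], [0, 1]]
def QA3 : List (List ℤ) := [[5, 2, 6],
  [1, 5, 5, 5, 2, 4, 2, 1, 0, 3, 4, 5, 2, 4, 3, 3, 6, 6, 1, 2, 5, 6, 1, 3],
  [2, 2, 4, 1, 3, 4, 6, 5, 2, 6, 6, 5, 1, 4, 4, 1, 4, 5, 2, 4, 3, 5, 2, 6],
  [3, 5, 4, 6, 1, 2, 3, 5, 4, 4, 1, 3, 4, 1, 6, 6, 5, 5, 2, 4, 3, 5, 2, 6],
  [3, 0, 2, 2, 1, 4, 3, 3, 1, 1, 3, 1, 0, 5, 1, 4, 6, 5, 2, 4, 3, 5, 2, 6]]

theorem allA1 : chkAll 7 [6, 0, 3, 0, 1] HA1 QA1 4 = true := by decide +kernel
theorem oneA1 : chkOne 7 [6, 0, 3, 0, 1] (HA1.getD 2 []) [0, 2, 0, 3] [6] = true := by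
  decide +kernel
theorem allA2 : chkAll 7 [5, 0, 3, 0, 1] HA2 QA2 4 = true := by decide +kernel
theorem oneA2 : chkOne 7 [5, 0, 3, 0, 1] (HA2.getD 2 []) [0, 1, 0, 5] [3] = true := by
  decide +kernel
theorem allA3 : chkAll 7 [1, 2, 4, 5, 5, 6] HA3 QA3 5 = true := by decide +kernel
theorem oneA3 : chkOne 7 [1, 2, 4, 5, 5, 6] (HA3.getD 1 []) [1, 5, 3, 4, 6] [6, 5, 6, 3] = true := by
  decide +kernel

variable {k : Type} [Field k]

theorem fA_eq : fG 2 (3 : k) 0 = X ^ 4 + 3 * X ^ 2 := by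
  unfold fG
  rw [C_0, add_zero, show (C 3 : k[X]) = 3 from map_ofNat C 3]

theorem fA_deg (a : k) : (fG 2 (3 : k) 0 - C a).natDegree = 4 := by
  rw [natDegree_sub_C, fG_deg (by norm_num)]

theorem fA_irr1 [Finite k] {r : ℕ} (h : Nat.card k = 7 ^ r) (hr : Odd r) :
    Irreducible (fG 2 (3 : k) 0 - C 1) := by
  haveI := charP7 h
  refine irr_of (r := 7) h (n := 4) ?_ (fA_deg 1) (by norm_num) fun F _ _ _ a ha d hd => ?_
  · exact (hr.coprime_two_right).pow_right 2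
  · have h7 : (7 : F) = 0 := by
      have := CharP.cast_eq_zero F 7
      exact_mod_cast this
    have hev : evL [6, 0, 3, 0, 1] a = 0 := by
      rw [fA_eq, C_1] at ha
      simp only [map_add, map_sub, map_mul, map_pow, aeval_X, map_one, map_ofNat] at ha
      simp only [evL]
      push_cast
      linear_combination ha + h7
    refine dvd_of_pow (r := 7) (by norm_num) (pow_n allA1 hev) (fun l hl hl4 => ?_) hd
    have hl' : l = 2 := (Nat.prime_dvd_prime_iff_eq hl Nat.prime_two).1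
      (hl.dvd_of_dvd_pow (show l ∣ 2 ^ 2 from hl4))
    subst hl'
    exact pow_ne allA1 hev (by norm_num) oneA1

theorem fA_irr2 [Finite k] {r : ℕ} (h : Nat.card k = 7 ^ r) (hr : Odd r) :
    Irreducible (fG 2 (3 : k) 0 - C 2) := by
  haveI := charP7 h
  refine irr_of (r := 7) h (n := 4) ?_ (fA_deg 2) (by norm_num) fun F _ _ _ a ha d hd => ?_
  · exact (hr.coprime_two_right).pow_right 2
  · have h7 : (7 : F) = 0 := by
      have := CharP.cast_eq_zero F 7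
      exact_mod_cast this
    have hev : evL [5, 0, 3, 0, 1] a = 0 := by
      rw [fA_eq, show (C 2 : k[X]) = 2 from map_ofNat C 2] at ha
      simp only [map_add, map_sub, map_mul, map_pow, aeval_X, map_one, map_ofNat] at ha
      simp only [evL]
      push_cast
      linear_combination ha + h7
    refine dvd_of_pow (r := 7) (by norm_num) (pow_n allA2 hev) (fun l hl hl4 => ?_) hd
    have hl' : l = 2 := (Nat.prime_dvd_prime_iff_eq hl Nat.prime_two).1
      (hl.dvd_of_dvd_pow (show l ∣ 2 ^ 2 from hl4))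
    subst hl'
    exact pow_ne allA2 hev (by norm_num) oneA2

theorem PA_eq : PG 2 (3 : k) 0 (X + 2) (X - 2) = -X ^ 5 + 12 * X ^ 4 - 16 * X ^ 3 + 32 * X ^ 2 +
    16 * X + 64 := by
  unfold PG
  rw [C_0, show (C 3 : k[X]) = 3 from map_ofNat C 3]
  ring

theorem PA_deg : (PG 2 (3 : k) 0 (X + 2) (X - 2)).natDegree = 5 := by
  rw [PA_eq]
  compute_degree!

theorem PA_lc : (PG 2 (3 : k) 0 (X + 2) (X - 2)).leadingCoeff = -1 := by
  rw [leadingCoeff, PA_deg, PA_eq]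
  simp [coeff_X, coeff_ofNat_mul]

theorem PA_zero : (PG 2 (3 : k) 0 (X + 2) (X - 2)).eval 0 = 64 := by
  rw [PA_eq]
  simp

theorem PA_one : (PG 2 (3 : k) 0 (X + 2) (X - 2)).eval 1 = 107 := by
  rw [PA_eq]
  simp only [eval_add, eval_sub, eval_neg, eval_mul, eval_pow, eval_X, eval_ofNat]
  ring

theorem PA_two : (PG 2 (3 : k) 0 (X + 2) (X - 2)).eval 2 = 256 := by
  rw [PA_eq]
  simp only [eval_add, eval_sub, eval_neg, eval_mul, eval_pow, eval_X, eval_ofNat]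
  ring

theorem PA_irr [Finite k] {r : ℕ} (h : Nat.card k = 7 ^ r) (hr : r.Coprime 5) :
    Irreducible (PG 2 (3 : k) 0 (X + 2) (X - 2)) := by
  haveI := charP7 h
  refine irr_of (r := 7) h (n := 5) hr PA_deg (by norm_num) fun F _ _ _ a ha d hd => ?_
  have h7 : (7 : F) = 0 := by
    have := CharP.cast_eq_zero F 7
    exact_mod_cast this
  have hev : evL [1, 2, 4, 5, 5, 6] a = 0 := by
    rw [PA_eq] at ha
    simp only [map_add, map_sub, map_neg, map_mul, map_pow, aeval_X, map_ofNat] at ha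
    simp only [evL]
    push_cast
    linear_combination ha + (a ^ 5 - a ^ 4 + 3 * a ^ 3 - 4 * a ^ 2 - 2 * a - 9) * h7
  refine dvd_of_pow (r := 7) (by norm_num) (pow_n allA3 hev) (fun l hl hl5 => ?_) hd
  have hl' : l = 5 := (Nat.prime_dvd_prime_iff_eq hl (by norm_num)).1 hl5
  subst hl'
  exact pow_ne allA3 hev (by norm_num) oneA3

theorem Phi_two (h7 : (7 : k) = 0) (e : ℕ) : (Phi 3 (fun _ => (1 : k)) e).eval 2 = 2 := by
  induction e with
  | zero => rw [Phi, eval_X]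
  | succ e ih =>
    rw [Phi, eval_comp, eval_add, eval_pow, eval_X, eval_C]
    have h1 : (2 ^ 3 + 1 : k) = 2 := by linear_combination h7
    rw [h1, ih]

theorem Phi_one (h7 : (7 : k) = 0) (e : ℕ) : (Phi 3 (fun _ => (1 : k)) e).eval 1 = 1 ∨
    (Phi 3 (fun _ => (1 : k)) e).eval 1 = 2 := by
  cases e with
  | zero =>
    left
    rw [Phi, eval_X]
  | succ e =>
    right
    rw [Phi, eval_comp, eval_add, eval_pow, eval_X, eval_C]
    have h1 : (1 ^ 3 + 1 : k) = 2 := by norm_num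
    rw [h1, Phi_two h7]

theorem not_pow1 [Finite k] {r : ℕ} (h : Nat.card k = 7 ^ r) (hr : r.Coprime 3) (v : k) :
    (107 : k) ≠ v ^ 3 * -1 := by
  haveI := charP7 h
  intro hv
  have h7 : (7 : k) = 0 := by
    have := CharP.cast_eq_zero k 7
    exact_mod_cast this
  refine not_cube7 h hr v ?_
  linear_combination hv - 15 * h7

theorem not_pow2 [Finite k] {r : ℕ} (h : Nat.card k = 7 ^ r) (hr : r.Coprime 3) (v : k) :
    (256 : k) ≠ v ^ 3 * -1 := by
  haveI := charP7 h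
  intro hv
  have h7 : (7 : k) = 0 := by
    have := CharP.cast_eq_zero k 7
    exact_mod_cast this
  refine not_cube7 h hr (-v ^ 2) ?_
  linear_combination (-(v ^ 3 - 256)) * hv - 9362 * h7

end Pool.Agent.X261.DT
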