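import Pool.Agent.X261.DT.Step

/-!
Split primes in arboreal towers.
-/

set_option autoImplicit false
set_option linter.all false

open Polynomial IsDedekindDomain WithZero
open scoped nonZeroDivisors Classical

namespace Pool.Agent.X261.DT

open Pool.Agent.TH115.GD (IsTower)
open Pool.Agent.Y160
open Pool.Agent.Y160.SE (SmoothC)
open Pool.Agent.Y160.SL (Concl IsTowerCurve atZero powT)
open Pool.Agent.Y160.FT (Pres)
open Pool.Agent.Y160.T7
open Pool.Agent.Y228.FT
open Pool.Agent.X261.TS
open Pool.Agent.X261.MB (conclB)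

section shift

variable {k : Type} [Field k]

theorem swap_shift (f : k[X][X]) (c : k) :
    Bivariate.swap ((Bivariate.swap f).comp (C (C 1) * X + C (C c))) =
      f.map (compRingHom (X + C c)) := by
  have key : ((Bivariate.swap (R := k)).toRingEquiv.toRingHom.comp
      (compRingHom (C (C 1) * X + C (C c)))).comp (Bivariate.swap (R := k)).toRingEquiv.toRingHom =
      mapRingHom (compRingHom (X + C c)) := by
    apply Polynomial.ringHom_ext'
    · apply Polynomial.ringHom_ext'
      · apply RingHom.ext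
        intro a
        show Bivariate.swap ((Bivariate.swap (C (C a))).comp (C (C 1) * X + C (C c))) =
          (C (C a) : k[X][X]).map (compRingHom (X + C c))
        rw [Bivariate.swap_C_C, C_comp, Bivariate.swap_C_C, map_C]
        congr 1
        show _ = (C a).comp _
        rw [C_comp]
      · show Bivariate.swap ((Bivariate.swap (C X)).comp (C (C 1) * X + C (C c))) =
          (C X : k[X][X]).map (compRingHom (X + C c))
        rw [Bivariate.swap_X, X_comp, map_add, map_mul, Bivariate.swap_C_C, Bivariate.swap_C_C,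
          Bivariate.swap_Y, map_C]
        show _ = C ((X : k[X]).comp (X + C c))
        rw [X_comp, C_1, C_1, one_mul, C_add]
    · show Bivariate.swap ((Bivariate.swap X).comp (C (C 1) * X + C (C c))) =
          (X : k[X][X]).map (compRingHom (X + C c))
      rw [Bivariate.swap_Y, C_comp, Bivariate.swap_X, map_X]
  exact congrArg (fun φ : k[X][X] →+* k[X][X] => φ f) key

theorem tower_shift {p : ℕ} {f : k[X][X]} (h : IsTowerCurve p f) (c : k) :
    IsTowerCurve p (f.map (compRingHom (X + C c))) := by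
  rw [← swap_shift]
  exact (h.swap.shear _ 1 (C c) one_ne_zero).swap

theorem map_sig (p : ℕ) (c : k) (f : k[X][X]) :
    f.map (sig p c) = powT p (f.map (compRingHom (X + C c))) := by
  unfold powT
  rw [Polynomial.map_map]
  congr 1
  apply RingHom.ext
  intro P
  exact sig_eq p c P

theorem atZero_shift (f : k[X][X]) (c : k) :
    atZero (f.map (compRingHom (X + C c))) = f.map (evalRingHom c) := by
  unfold atZero
  rw [Polynomial.map_map]
  congr 1
  apply RingHom.ext
  intro P
  show (P.comp (X + C c)).eval 0 = P.eval c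
  rw [eval_comp, eval_add, eval_X, eval_C, zero_add]

end shift

section data

variable {k : Type} [Field k]

/-- The data. -/
structure DD (p : ℕ) {m : ℕ} (f : k[X][X]) (b P : k[X]) (g : Fin (m + 1) → k[X][X]) : Prop where
  tower : IsTowerCurve p f
  monic : f.Monic
  cop : p.Coprime f.natDegree
  der : derivative f ≠ 0
  ne_zero : b ≠ 0
  not_dvd : ¬ P ∣ b
  inert : ∀ Q : k[X], Irreducible Q → Q ∣ b → Irreducible (f.map (AdjoinRoot.mk Q))
  prime : Irreducible P
  fac_monic : ∀ i, (g i).Monic
  fac_cop : ∀ i, p.Coprime (g i).natDegree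
  eq : f.scaleRoots b = C P + ∏ i, g i
  fac_irr : ∀ i, Irreducible ((g i).map (AdjoinRoot.mk P))
  fac_ne : ∀ i i', i ≠ i' → (g i).map (AdjoinRoot.mk P) ≠ (g i').map (AdjoinRoot.mk P)

theorem DD.step {p m : ℕ} {f : k[X][X]} {b P : k[X]} {g : Fin (m + 1) → k[X][X]}
    (h : DD p f b P g) (hp : p.Prime) {ζ : k} (hζ : IsPrimitiveRoot ζ p)
    (h4 : p = 2 → IsSquare (-1 : k)) {c : k} (hirr : Irreducible (f.map (evalRingHom c)))
    (hsep : (f.map (evalRingHom c)).Separable)
    (hP0 : ∀ v : k, P.eval c ≠ v ^ p * P.leadingCoeff) :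
    DD p (f.map (sig p c)) (sig p c b) (sig p c P) (fun i => (g i).map (sig p c)) := by
  have hP' := sig_irr hp h4 h.prime hP0
  refine ⟨?_, h.monic.map _, ?_, ?_, ?_, ?_, ?_, hP', fun i => (h.fac_monic i).map _, fun i => ?_,
    ?_, fun i => irr_step hp hζ h.prime hP' dvd_rfl (h.fac_monic i) (h.fac_cop i) (h.fac_irr i),
    fun i i' hne => ne_step h.prime hP' dvd_rfl (h.fac_ne i i' hne)⟩
  · rw [map_sig]
    refine (tower_shift h.tower c).root _ ?_ ?_ ?_
    · rwa [atZero_shift]
    · rwa [atZero_shift]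
    · rw [atZero_shift, h.monic.natDegree_map]
      exact h.cop
  · rw [h.monic.natDegree_map]
    exact h.cop
  · rw [derivative_map]
    exact (Polynomial.map_ne_zero_iff (sig_inj hp.pos c)).2 h.der
  · intro h0
    exact h.ne_zero (sig_inj hp.pos c (by rw [h0, map_zero]))
  · intro hd
    obtain ⟨u, v, huv⟩ := (h.prime.coprime_iff_not_dvd.2 h.not_dvd)
    have h2 := congrArg (sig p c) huv
    rw [map_add, map_mul, map_mul, map_one] at h2
    refine hP'.not_isUnit (isUnit_of_dvd_one ?_)
    rw [← h2]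
    exact dvd_add (Dvd.intro_left _ rfl) (hd.mul_left _)
  · intro Q hQ hQb
    obtain ⟨P', hP'i, hP'b, hQP'⟩ := exists_below h.ne_zero hQ hQb
    exact irr_step hp hζ hP'i hQ hQP' h.monic h.cop (h.inert P' hP'i hP'b)
  · rw [(h.fac_monic i).natDegree_map]
    exact h.fac_cop i
  · have h1 := congrArg (Polynomial.map (sig p c)) h.eq
    rw [map_scaleRoots _ _ _ (by
      rw [h.monic.leadingCoeff, map_one]
      exact one_ne_zero), Polynomial.map_add, map_C, Polynomial.map_prod] at h1
    exact h1

variable {k' K F : Type} [Field k'] [Algebra k k'] [Field K] [Algebra k[X] K]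
  [Field F] [Algebra k'[X] F] [IsFractionRing k'[X] F] [Algebra K F] [IsFractionRing k[X] K]

theorem DD.concl {p s m : ℕ} {f : k[X][X]} {b P : k[X]} {g : Fin (m + 1) → k[X][X]}
    (h : DD p f b P g) (hT : IsTower k k' K F) (hp : p.Prime) {ζ : k}
    (hζ : IsPrimitiveRoot ζ (p ^ (s + 1))) {j : ℕ} (hj : p ^ (s + 1) ∣ f.natDegree * j + 1) :
    Concl p (p ^ (s + 1)) m k k' F ((f.scaleRoots (b * P ^ j)).map (algebraMap k[X] K)) := by
  have hζ' : IsPrimitiveRoot (ζ ^ (p ^ s)) p :=
    hζ.pow (pow_pos hp.pos _) (by rw [pow_succ])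
  have hirrF := irrF hT hp h.tower h.monic
  have hirrK : Irreducible (f.map (algebraMap k[X] K)) :=
    Polynomial.Monic.irreducible_of_irreducible_map (algebraMap K F) _ (h.monic.map _) hirrF
  have hsepK : (f.map (algebraMap k[X] K)).Separable := by
    rw [separable_iff_derivative_ne_zero hirrK, derivative_map]
    exact (Polynomial.map_ne_zero_iff (IsFractionRing.injective k[X] K)).2 h.der
  have hsm : SmoothC f :=
    Pool.Agent.Y179.T7.st_smooth p k _ hp (Pool.Agent.Y160.FT.p_ne hp rfl hζ) h.tower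
  have hR : ∃ (R : Type) (_ : CommRing R) (_ : IsDedekindDomain R) (_ : Algebra k R) (t x : R),
      Pres t x f ∧ PropT p k R := by
    obtain ⟨R, i1, i2, i3, t, x, h1, h2⟩ := tower_prop hp hζ' h.tower
    exact ⟨R, i1, i2, i3, t, x, h1, h2⟩
  exact conclB hT hp rfl hζ h.monic h.cop h.ne_zero h.not_dvd h.inert h.prime h.fac_monic h.eq
    h.fac_irr h.fac_ne hj hR hsepK hsm hirrF

end data

section poly

variable {k : Type} [Field k]

/-- The iterated maps `Φ`. -/
noncomputable def Phi (p : ℕ) (c : ℕ → k) : ℕ → k[X]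
  | 0 => X
  | e + 1 => (Phi p c e).comp (X ^ p + C (c e))

theorem Phi_monic {p : ℕ} (hp : 0 < p) (c : ℕ → k) (e : ℕ) : (Phi p c e).Monic ∧
    (Phi p c e).natDegree = p ^ e := by
  induction e with
  | zero => exact ⟨monic_X, by rw [Phi, natDegree_X, pow_zero]⟩
  | succ e ih =>
    rw [Phi]
    have h1 : (X ^ p + C (c e) : k[X]).Monic := monic_X_pow_add_C _ hp.ne'
    have h2 : (X ^ p + C (c e) : k[X]).natDegree = p := natDegree_X_pow_add_C
    refine ⟨ih.1.comp h1 (by omega), ?_⟩
    rw [natDegree_comp, ih.2, h2, pow_succ]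

theorem comp_lc {p : ℕ} (hp : 0 < p) (c : ℕ → k) (e : ℕ) (P : k[X]) :
    (P.comp (Phi p c e)).leadingCoeff = P.leadingCoeff := by
  rw [leadingCoeff_comp (by
    rw [(Phi_monic hp c e).2]
    exact (pow_pos hp e).ne'), (Phi_monic hp c e).1.leadingCoeff, one_pow, mul_one]

theorem comp_step (p : ℕ) (c : ℕ → k) (e : ℕ) (P : k[X]) :
    P.comp (Phi p c (e + 1)) = sig p (c e) (P.comp (Phi p c e)) := by
  rw [sig_apply, comp_assoc]
  rfl

theorem map_step (p : ℕ) (c : ℕ → k) (e : ℕ) (f : k[X][X]) :
    f.map (compRingHom (Phi p c (e + 1))) =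
      (f.map (compRingHom (Phi p c e))).map (sig p (c e)) := by
  rw [Polynomial.map_map]
  congr 1
  apply RingHom.ext
  intro P
  exact comp_step p c e P

theorem map_zero' (p : ℕ) (c : ℕ → k) (f : k[X][X]) :
    f.map (compRingHom (Phi p c 0)) = f := by
  have h1 : compRingHom (Phi p c 0) = RingHom.id k[X] := by
    apply RingHom.ext
    intro P
    show P.comp X = P
    rw [comp_X]
  rw [h1, Polynomial.map_id]

/-- All the layers. -/
theorem DD.all {p m : ℕ} {f : k[X][X]} {b P : k[X]} {g : Fin (m + 1) → k[X][X]}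
    (h : DD p f b P g) (hp : p.Prime) {ζ : k} (hζ : IsPrimitiveRoot ζ p)
    (h4 : p = 2 → IsSquare (-1 : k)) (c : ℕ → k)
    (hirr : ∀ e, Irreducible (f.map (evalRingHom ((Phi p c e).eval (c e)))))
    (hsep : ∀ e, (f.map (evalRingHom ((Phi p c e).eval (c e)))).Separable)
    (hP0 : ∀ (e : ℕ) (v : k), P.eval ((Phi p c e).eval (c e)) ≠ v ^ p * P.leadingCoeff) (e : ℕ) :
    DD p (f.map (compRingHom (Phi p c e))) (b.comp (Phi p c e)) (P.comp (Phi p c e))
      (fun i => (g i).map (compRingHom (Phi p c e))) := by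
  induction e with
  | zero =>
    simp only [map_zero']
    have h1 : Phi p c 0 = X := rfl
    rw [h1, comp_X, comp_X]
    exact h
  | succ e ih =>
    have e1 : ((f.map (compRingHom (Phi p c e))).map (evalRingHom (c e))) =
        f.map (evalRingHom ((Phi p c e).eval (c e))) := by
      rw [Polynomial.map_map]
      congr 1
      apply RingHom.ext
      intro P
      show (P.comp (Phi p c e)).eval (c e) = P.eval ((Phi p c e).eval (c e))
      rw [eval_comp]
    have h1 := ih.step hp hζ h4 (c := c e) (by rw [e1]; exact hirr e) (by rw [e1]; exact hsep e)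
      (fun v => by
        rw [eval_comp, comp_lc hp.pos]
        exact hP0 e v)
    simp only [map_step]
    rw [comp_step, comp_step]
    exact h1

theorem DD.base {p m : ℕ} {f0 : k[X]} (hm : f0.Monic) (hn0 : 0 < f0.natDegree)
    (hder : derivative f0 ≠ 0) (hcop : p.Coprime f0.natDegree)
    {P b : k[X]} {g : Fin (m + 1) → k[X][X]} (hb : b ≠ 0) (hPb : ¬ P ∣ b)
    (hin : ∀ Q : k[X], Irreducible Q → Q ∣ b → Irreducible (Q.comp f0))
    (hPi : Irreducible P) (hg : ∀ i, (g i).Monic) (hgd : ∀ i, p.Coprime (g i).natDegree)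
    (hf : (graph f0).scaleRoots b = C P + ∏ i, g i)
    (hi : ∀ i, Irreducible ((g i).map (AdjoinRoot.mk P)))
    (hne : ∀ i i', i ≠ i' → (g i).map (AdjoinRoot.mk P) ≠ (g i').map (AdjoinRoot.mk P)) :
    DD p (graph f0) b P g := by
  refine ⟨tower_graph p f0, monic_graph hm hn0, by rwa [natDegree_graph], ?_, hb, hPb,
    fun Q hQ hQb => graph_mod hm hn0 hQ (hin Q hQ hQb), hPi, hg, hgd, hf, hi, hne⟩
  unfold graph
  rw [derivative_sub, derivative_C, sub_zero, derivative_map,
    Polynomial.map_ne_zero_iff C_injective]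
  exact hder

theorem graph_eval (f0 : k[X]) (a : k) : (graph f0).map (evalRingHom a) = f0 - C a := by
  unfold graph
  rw [Polynomial.map_sub, map_C, Polynomial.map_map]
  have e : (evalRingHom a).comp (C : k →+* k[X]) = RingHom.id k := RingHom.ext fun x => by
    show (C x).eval a = x
    rw [eval_C]
  rw [e, Polynomial.map_id]
  show f0 - C ((X : k[X]).eval a) = _
  rw [eval_X]

theorem graph_comp (f0 Φ : k[X]) :
    (graph f0).map (compRingHom Φ) = f0.map C - C Φ := by
  unfold graph
  rw [Polynomial.map_sub, map_C, Polynomial.map_map]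
  congr 1
  · congr 1
    apply RingHom.ext
    intro y
    show (C y).comp Φ = C y
    rw [C_comp]
  · show C ((X : k[X]).comp Φ) = C Φ
    rw [X_comp]

end poly

end Pool.Agent.X261.DT
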