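import Pool.Agent.X261.MB.Lay

/-!
Pull-backs along `t ↦ t ^ p + c`.
-/

set_option autoImplicit false
set_option linter.all false

open Polynomial IsDedekindDomain WithZero
open scoped nonZeroDivisors Classical

namespace Pool.Agent.X261.DT

open Pool.Agent.TH115.GD (IsTower)
open Pool.Agent.Y160
open Pool.Agent.Y160.SE (SmoothC)
open Pool.Agent.Y160.SL (Concl IsTowerCurve atZero powT)
open Pool.Agent.Y160.FT (Pres)
open Pool.Agent.Y160.T7
open Pool.Agent.Y228.FT
open Pool.Agent.X261.TS

section sig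

variable {k : Type} [Field k]

/-- The homomorphism `t ↦ t ^ p + c`. -/
noncomputable def sig (p : ℕ) (c : k) : k[X] →+* k[X] := compRingHom (X ^ p + C c)

theorem sig_apply (p : ℕ) (c : k) (P : k[X]) : sig p c P = P.comp (X ^ p + C c) := rfl

theorem sig_eq (p : ℕ) (c : k) (P : k[X]) : sig p c P = expand k p (P.comp (X + C c)) := by
  rw [sig_apply, expand_eq_comp_X_pow, comp_assoc, add_comp, X_comp, C_comp]

theorem shift_inj (c : k) {P : k[X]} (h : P.comp (X + C c) = 0) : P = 0 := by
  rcases comp_eq_zero_iff.1 h with h1 | h1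
  · exact h1
  · exfalso
    have h2 := congrArg natDegree h1.2
    rw [natDegree_X_add_C, natDegree_C] at h2
    exact one_ne_zero h2

theorem sig_inj {p : ℕ} (hp : 0 < p) (c : k) : Function.Injective (sig p c) := by
  rw [injective_iff_map_eq_zero]
  intro P hP
  rw [sig_eq, expand_eq_zero hp] at hP
  exact shift_inj c hP

/-- The homomorphism of residue fields. -/
noncomputable def sigMap {p : ℕ} {c : k} {P Q : k[X]} (h : Q ∣ sig p c P) :
    AdjoinRoot P →+* AdjoinRoot Q :=
  AdjoinRoot.lift (AdjoinRoot.of Q) (AdjoinRoot.root Q ^ p + AdjoinRoot.of Q c) (by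
    have e : eval₂ (AdjoinRoot.of Q) (AdjoinRoot.root Q ^ p + AdjoinRoot.of Q c) P =
        eval₂ (AdjoinRoot.of Q) (AdjoinRoot.root Q) (sig p c P) := by
      rw [sig_apply, eval₂_comp, eval₂_add, eval₂_pow, eval₂_X, eval₂_C]
    rw [e]
    obtain ⟨Z, hZ⟩ := h
    rw [hZ, eval₂_mul, AdjoinRoot.eval₂_root, zero_mul])

theorem sigMap_mk {p : ℕ} {c : k} {P Q : k[X]} (h : Q ∣ sig p c P) :
    (sigMap h).comp (AdjoinRoot.mk P) = (AdjoinRoot.mk Q).comp (sig p c) := by
  apply RingHom.ext
  intro g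
  show sigMap h (AdjoinRoot.mk P g) = AdjoinRoot.mk Q (sig p c g)
  unfold sigMap
  rw [AdjoinRoot.lift_mk, ← AdjoinRoot.aeval_eq, aeval_def, sig_apply, eval₂_comp, eval₂_add,
    eval₂_pow, eval₂_X, eval₂_C]
  rfl

/-- The degree of the residue field extension. -/
theorem sig_degree {p : ℕ} (hp : p.Prime) {ζ : k} (hζ : IsPrimitiveRoot ζ p) {c : k} {P Q : k[X]}
    (hP : Irreducible P) (hQ : Irreducible Q) (h : Q ∣ sig p c P) :
    letI : Algebra (AdjoinRoot P) (AdjoinRoot Q) := (sigMap h).toAlgebra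
    Module.Finite (AdjoinRoot P) (AdjoinRoot Q) ∧
      Module.finrank (AdjoinRoot P) (AdjoinRoot Q) ∣ p := by
  haveI : Fact (Irreducible P) := ⟨hP⟩
  haveI : Fact (Irreducible Q) := ⟨hQ⟩
  letI : Algebra (AdjoinRoot P) (AdjoinRoot Q) := (sigMap h).toAlgebra
  have hof : ∀ c : k, algebraMap (AdjoinRoot P) (AdjoinRoot Q) (AdjoinRoot.of P c) =
      AdjoinRoot.of Q c := by
    intro c
    show sigMap h (AdjoinRoot.of P c) = _
    unfold sigMap
    rw [AdjoinRoot.lift_of]
  set β : AdjoinRoot Q := AdjoinRoot.root Q with hβ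
  set α : AdjoinRoot P := AdjoinRoot.root P - AdjoinRoot.of P c with hα
  have hab : algebraMap (AdjoinRoot P) (AdjoinRoot Q) α = β ^ p := by
    rw [hα, map_sub, hof]
    have h1 : algebraMap (AdjoinRoot P) (AdjoinRoot Q) (AdjoinRoot.root P) =
        β ^ p + AdjoinRoot.of Q c := by
      show sigMap h (AdjoinRoot.root P) = _
      unfold sigMap
      rw [AdjoinRoot.lift_root]
    rw [h1, add_sub_cancel_right]
  have hroot : aeval β (X ^ p - C α : (AdjoinRoot P)[X]) = 0 := by
    rw [map_sub, map_pow, aeval_X, aeval_C, hab, sub_self]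
  have hint : IsIntegral (AdjoinRoot P) β := ⟨X ^ p - C α, monic_X_pow_sub_C α hp.ne_zero, by
    rw [← aeval_def]
    exact hroot⟩
  have htop : IntermediateField.adjoin (AdjoinRoot P) {β} = ⊤ := by
    rw [eq_top_iff]
    intro y _
    obtain ⟨g, rfl⟩ := AdjoinRoot.mk_surjective y
    have hβm : β ∈ IntermediateField.adjoin (AdjoinRoot P) {β} :=
      IntermediateField.mem_adjoin_simple_self _ β
    induction g using Polynomial.induction_on' with
    | add g1 g2 h1 h2 =>
      rw [map_add]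
      exact add_mem (h1 trivial) (h2 trivial)
    | monomial n a =>
      rw [← C_mul_X_pow_eq_monomial, map_mul, map_pow, AdjoinRoot.mk_X, AdjoinRoot.mk_C, ← hof]
      exact mul_mem (IntermediateField.algebraMap_mem _ _) (pow_mem hβm n)
  have hfin : FiniteDimensional (AdjoinRoot P) (IntermediateField.adjoin (AdjoinRoot P) {β}) :=
    IntermediateField.adjoin.finiteDimensional hint
  have hdeg : Module.finrank (AdjoinRoot P) (AdjoinRoot Q) = (minpoly (AdjoinRoot P) β).natDegree := by
    rw [← IntermediateField.adjoin.finrank hint, htop, IntermediateField.finrank_top']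
  have hfd : Module.Finite (AdjoinRoot P) (AdjoinRoot Q) := by
    rw [htop] at hfin
    exact Module.Finite.equiv (IntermediateField.topEquiv (F := AdjoinRoot P)
      (E := AdjoinRoot Q)).toLinearEquiv
  refine ⟨hfd, ?_⟩
  rw [hdeg]
  by_cases hα' : ∃ γ : AdjoinRoot P, γ ^ p = α
  · obtain ⟨γ, hγ⟩ := hα'
    have hζP : IsPrimitiveRoot (AdjoinRoot.of Q ζ) p :=
      hζ.map_of_injective (AdjoinRoot.of Q).injective
    by_cases hβ0 : β = 0
    · have e : minpoly (AdjoinRoot P) β = X := by
        rw [hβ0]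
        exact minpoly.zero _ _
      rw [e, natDegree_X]
      exact one_dvd p
    · have h1 : (algebraMap (AdjoinRoot P) (AdjoinRoot Q) γ / β) ^ p = 1 := by
        rw [div_pow, ← map_pow, hγ, hab, div_self (pow_ne_zero p hβ0)]
      haveI : NeZero p := ⟨hp.ne_zero⟩
      obtain ⟨i, -, hi⟩ := hζP.eq_pow_of_pow_eq_one h1
      have hζ0 : AdjoinRoot.of Q ζ ^ i ≠ 0 := pow_ne_zero i (hζP.ne_zero hp.ne_zero)
      have h2 : β = algebraMap (AdjoinRoot P) (AdjoinRoot Q) (γ / AdjoinRoot.of P ζ ^ i) := by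
        rw [map_div₀, map_pow, hof, hi]
        have hg0 : algebraMap (AdjoinRoot P) (AdjoinRoot Q) γ ≠ 0 := by
          intro h0
          rw [h0, zero_div, zero_pow hp.ne_zero] at h1
          exact zero_ne_one h1
        field_simp
      rw [h2, minpoly.eq_X_sub_C, natDegree_X_sub_C]
      exact one_dvd p
  · have hirr : Irreducible (X ^ p - C α : (AdjoinRoot P)[X]) :=
      X_pow_sub_C_irreducible_of_prime hp fun b hb => hα' ⟨b, hb⟩
    rw [← minpoly.eq_of_irreducible_of_monic hirr hroot (monic_X_pow_sub_C α hp.ne_zero),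
      natDegree_X_pow_sub_C]

/-- Irreducible polynomials of degree prime to `p` remain irreducible. -/
theorem irr_step {p : ℕ} (hp : p.Prime) {ζ : k} (hζ : IsPrimitiveRoot ζ p) {c : k} {P Q : k[X]}
    (hP : Irreducible P) (hQ : Irreducible Q) (h : Q ∣ sig p c P) {g : k[X][X]} (hg : g.Monic)
    (hgd : p.Coprime g.natDegree) (hi : Irreducible (g.map (AdjoinRoot.mk P))) :
    Irreducible ((g.map (sig p c)).map (AdjoinRoot.mk Q)) := by
  haveI : Fact (Irreducible P) := ⟨hP⟩
  haveI : Fact (Irreducible Q) := ⟨hQ⟩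
  obtain ⟨h1, h2⟩ := sig_degree hp hζ hP hQ h
  letI : Algebra (AdjoinRoot P) (AdjoinRoot Q) := (sigMap h).toAlgebra
  haveI : Module.Finite (AdjoinRoot P) (AdjoinRoot Q) := h1
  have e : (g.map (sig p c)).map (AdjoinRoot.mk Q) =
      (g.map (AdjoinRoot.mk P)).map (algebraMap (AdjoinRoot P) (AdjoinRoot Q)) := by
    rw [Polynomial.map_map, Polynomial.map_map]
    congr 1
    exact (sigMap_mk h).symm
  rw [e]
  refine Pool.Agent.X261.AA.irr_of_coprime hi ?_
  rw [hg.natDegree_map]
  exact Nat.Coprime.coprime_dvd_left h2 hgd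

theorem ne_step {p : ℕ} {c : k} {P Q : k[X]} (hP : Irreducible P) (hQ : Irreducible Q)
    (h : Q ∣ sig p c P) {g g' : k[X][X]}
    (hne : g.map (AdjoinRoot.mk P) ≠ g'.map (AdjoinRoot.mk P)) :
    (g.map (sig p c)).map (AdjoinRoot.mk Q) ≠ (g'.map (sig p c)).map (AdjoinRoot.mk Q) := by
  haveI : Fact (Irreducible P) := ⟨hP⟩
  haveI : Fact (Irreducible Q) := ⟨hQ⟩
  intro h1
  rw [Polynomial.map_map, Polynomial.map_map, ← sigMap_mk h, ← Polynomial.map_map,
    ← Polynomial.map_map] at h1
  exact hne (Polynomial.map_injective _ (sigMap h).injective h1)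

theorem exists_below {p : ℕ} {c : k} {D : k[X]} (hD : D ≠ 0) {Q : k[X]}
    (hQ : Irreducible Q) (hd : Q ∣ sig p c D) :
    ∃ P : k[X], Irreducible P ∧ P ∣ D ∧ Q ∣ sig p c P := by
  have key : ∀ (n : ℕ) (Z : k[X]), Z.natDegree = n → Z ≠ 0 → Z ∣ D →
      Q ∣ sig p c Z → ∃ P : k[X], Irreducible P ∧ P ∣ D ∧ Q ∣ sig p c P := by
    intro n
    induction n using Nat.strong_induction_on with
    | _ n ih =>
      intro Z hn hZ0 hZD hQZ
      by_cases hu : IsUnit Z
      · exact absurd (isUnit_of_dvd_unit hQZ (hu.map (sig p c))) hQ.not_isUnit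
      · obtain ⟨P, hP, Y, hY⟩ := WfDvdMonoid.exists_irreducible_factor hu hZ0
        rw [hY, map_mul] at hQZ
        rcases hQ.prime.dvd_or_dvd hQZ with h | h
        · exact ⟨P, hP, (Dvd.intro _ hY.symm).trans hZD, h⟩
        · have hY0 : Y ≠ 0 := by
            rintro rfl
            rw [mul_zero] at hY
            exact hZ0 hY
          refine ih Y.natDegree ?_ Y rfl hY0 ((Dvd.intro_left _ hY.symm).trans hZD) h
          rw [← hn, hY, natDegree_mul hP.ne_zero hY0]
          have := hP.natDegree_pos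
          omega
  exact key _ D rfl hD dvd_rfl hd

/-- The shift as an automorphism. -/
theorem shift_irr {P : k[X]} (hP : Irreducible P) (c : k) : Irreducible (P.comp (X + C c)) := by
  have h1 : P.comp (X + C c) = (algEquivAevalXAddC c) P := by
    rw [algEquivAevalXAddC_apply]
    rfl
  rw [h1]
  exact (MulEquiv.irreducible_iff (algEquivAevalXAddC c)).2 hP

theorem sig_irr {p : ℕ} (hp : p.Prime) (h4 : p = 2 → IsSquare (-1 : k)) {P : k[X]}
    (hP : Irreducible P) {c : k} (hc : ∀ v : k, P.eval c ≠ v ^ p * P.leadingCoeff) :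
    Irreducible (sig p c P) := by
  rw [sig_eq]
  have h1 := Pool.Agent.X261.MB.expand_irr' hp h4 (shift_irr hP c) (fun v => by
    rw [eval_comp, eval_add, eval_X, eval_C, zero_add, leadingCoeff_comp (by
      rw [natDegree_X_add_C]
      exact one_ne_zero), leadingCoeff_X_add_C, one_pow, mul_one]
    exact hc v) 1
  rwa [pow_one] at h1

end sig

end Pool.Agent.X261.DT
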